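import Pool.Agent.H90.EH.Targets

/-!
# The characteristic polynomial of a matrix of prime power order (row CYF)
-/

namespace Pool.Agent.H23.EH
open Finset Polynomial Pool.Agent.H90.EH

/-- A monic rational polynomial all of whose complex roots are roots of unity of order dividing
`p ^ r` is a product of cyclotomic polynomials. -/
lemma factor (p r : ℕ) (hp : p.Prime) : ∀ (d : ℕ) (f : ℚ[X]), f.natDegree = d → f.Monic →
    (∀ z : ℂ, aeval z f = 0 → z ^ p ^ r = 1) →
    ∃ n : ℕ → ℕ, f = ∏ l ∈ range (r + 1), cyclotomic (p ^ l) ℚ ^ n l := by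
  intro d
  induction d using Nat.strong_induction_on with
  | _ d ih =>
    intro f hd hf hz
    by_cases h0 : f.natDegree = 0
    · refine ⟨fun _ => 0, ?_⟩
      rw [(Monic.natDegree_eq_zero hf).1 h0]
      simp
    · have hdeg : f.degree ≠ 0 := by
        intro h
        exact h0 (natDegree_eq_of_degree_eq_some h)
      obtain ⟨z, hz0⟩ := IsAlgClosed.exists_aeval_eq_zero ℂ f hdeg
      have hz1 := hz z hz0
      have hord : orderOf z ∣ p ^ r := orderOf_dvd_of_pow_eq_one hz1
      obtain ⟨l, hl, hl2⟩ := (Nat.dvd_prime_pow hp).1 hord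
      have hprim : IsPrimitiveRoot z (p ^ l) := hl2 ▸ IsPrimitiveRoot.orderOf z
      have hpos : 0 < p ^ l := pow_pos hp.pos l
      have hmin := cyclotomic_eq_minpoly_rat hprim hpos
      have hdvd : cyclotomic (p ^ l) ℚ ∣ f := by
        rw [hmin]
        exact minpoly.dvd ℚ z hz0
      obtain ⟨g, hg⟩ := hdvd
      have hgm : g.Monic := by
        have : (cyclotomic (p ^ l) ℚ * g).Monic := hg ▸ hf
        exact Monic.of_mul_monic_left (cyclotomic.monic _ _) this
      have hdg : g.natDegree < d := by
        have h1 : f.natDegree = (cyclotomic (p ^ l) ℚ).natDegree + g.natDegree := by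
          rw [hg, (cyclotomic.monic _ _).natDegree_mul hgm]
        have h2 : 0 < (cyclotomic (p ^ l) ℚ).natDegree := by
          rw [natDegree_cyclotomic]
          exact Nat.totient_pos.2 hpos
        omega
      obtain ⟨n, hn⟩ := ih g.natDegree hdg g rfl hgm (fun w hw => hz w (by
        rw [hg, map_mul, hw, mul_zero]))
      refine ⟨fun l' => (if l = l' then 1 else 0) + n l', ?_⟩
      have hmem : l ∈ range (r + 1) := by
        rw [mem_range]; omega
      have h3 : ∏ l' ∈ range (r + 1), cyclotomic (p ^ l') ℚ ^ (if l = l' then 1 else 0)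
          = cyclotomic (p ^ l) ℚ := by
        rw [prod_pow_boole (range (r + 1)) (fun l' => cyclotomic (p ^ l') ℚ) l, if_pos hmem]
      simp only [pow_add]
      rw [prod_mul_distrib, h3, ← hn, hg]

theorem pf_CYF : T_CYF := by
  intro ι _ _ M p r hp hM
  have hroot : ∀ z : ℂ, aeval z (M.charpoly.map (Int.castRingHom ℚ)) = 0 → z ^ p ^ r = 1 := by
    intro z hz
    have hmap : M.charpoly.map (Int.castRingHom ℂ) = (M.map (Int.castRingHom ℂ)).charpoly :=
      (Matrix.charpoly_map M (Int.castRingHom ℂ)).symm
    have h1 : IsRoot (M.map (Int.castRingHom ℂ)).charpoly z := by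
      rw [← hmap, IsRoot, eval_map]
      rw [aeval_def, eval₂_map] at hz
      have hc : (algebraMap ℚ ℂ).comp (Int.castRingHom ℚ) = Int.castRingHom ℂ :=
        RingHom.ext_int _ _
      rw [hc] at hz
      exact hz
    have h2 : z ∈ spectrum ℂ (M.map (Int.castRingHom ℂ)) :=
      Matrix.mem_spectrum_of_isRoot_charpoly h1
    have h3 := spectrum.pow_mem_pow (M.map (Int.castRingHom ℂ)) (p ^ r) h2
    have h4 : (M.map (Int.castRingHom ℂ)) ^ p ^ r = 1 := by
      have := congrArg (Int.castRingHom ℂ).mapMatrix hM
      rw [map_pow, map_one] at this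
      exact this
    rw [h4] at h3
    rcases isEmpty_or_nonempty ι with he | he
    · exfalso
      have : Subsingleton (Matrix ι ι ℂ) := inferInstance
      rw [spectrum.mem_iff] at h3
      exact h3 (isUnit_of_subsingleton _)
    · rw [spectrum.one_eq] at h3
      exact h3
  obtain ⟨n, hn⟩ := factor p r hp _ (M.charpoly.map (Int.castRingHom ℚ)) rfl
    (M.charpoly_monic.map _) hroot
  refine ⟨n, ?_⟩
  apply map_injective (Int.castRingHom ℚ) Int.cast_injective
  rw [hn, Polynomial.map_prod]
  refine prod_congr rfl fun l _ => ?_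
  rw [Polynomial.map_pow, map_cyclotomic]

end Pool.Agent.H23.EH
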